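import Pool.Agent.Helper16.AZ.Stmts
import Pool.Agent.Helper40.Wiener

/-!
Moebius disjointness of compact group extensions (MP_7a8f48_an): the spectral measure of a
unitary operator and its atoms.
-/

set_option autoImplicit false

open Finset Filter MeasureTheory Topology
open scoped ComplexConjugate InnerProductSpace

namespace Pool.Agent.Helper16.AZ

open Pool.Agent.Helper40.Wiener (exists_measure geom_zero geom_one geom_bound norm_spec
  norm_pow_apply mean_zero)

variable {V : Type} [NormedAddCommGroup V] [InnerProductSpace ℂ V] [CompleteSpace V]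

theorem msr_meas (U : V →L[ℂ] V) (ξ : V) (hU : U ∈ unitary (V →L[ℂ] V)) :
    ∃ ν : Measure ℂ, IsFiniteMeasure ν ∧ (∀ᵐ z ∂ν, ‖z‖ = 1) ∧
      ∀ n : ℕ, ∫ z, z ^ n ∂ν = inner ℂ ξ ((U ^ n) ξ) := by
  have hUn : IsStarNormal U := ⟨by
    rw [commute_iff_eq, (Unitary.mem_iff.1 hU).1, (Unitary.mem_iff.1 hU).2]⟩
  obtain ⟨ν, hνf, hν⟩ := exists_measure U hUn ξ
  have hcpt : CompactSpace (spectrum ℂ U) :=
    isCompact_iff_compactSpace.mp (spectrum.isCompact U)
  have hmom : ∀ n : ℕ, ∫ z, (z : ℂ) ^ n ∂ν = inner ℂ ξ ((U ^ n) ξ) := by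
    intro n
    have h1 := hν ((ContinuousMap.restrict (spectrum ℂ U) (ContinuousMap.id ℂ)) ^ n)
    rw [map_pow, cfcHom_id] at h1
    rw [← h1]
    rfl
  refine ⟨ν.map Subtype.val, inferInstance, ?_, ?_⟩
  · rw [ae_map_iff measurable_subtype_coe.aemeasurable
      (measurableSet_eq_fun (by fun_prop) (by fun_prop))]
    exact Eventually.of_forall fun z => norm_spec U hU z
  · intro n
    rw [integral_map measurable_subtype_coe.aemeasurable (by fun_prop)]
    exact hmom n

theorem msr_atom (U : V →L[ℂ] V) (ξ : V) (hU : U ∈ unitary (V →L[ℂ] V)) (ν : Measure ℂ)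
    [IsFiniteMeasure ν] (hν1 : ∀ᵐ z ∂ν, ‖z‖ = 1)
    (hν : ∀ n : ℕ, ∫ z, z ^ n ∂ν = inner ℂ ξ ((U ^ n) ξ)) (z₀ : ℂ) (hz0 : ‖z₀‖ = 1) :
    ∃ η : V, ‖η‖ ≤ ‖ξ‖ ∧ U η = z₀ • η ∧ inner ℂ ξ η = (((ν {z₀}).toReal : ℝ) : ℂ) := by
  set W : V →L[ℂ] V := conj z₀ • U with hWdef
  have hUn : ‖U‖ ≤ 1 := by
    apply ContinuousLinearMap.opNorm_le_bound _ zero_le_one
    intro x
    have := norm_pow_apply U hU 1 x
    rw [pow_one] at this
    rw [this, one_mul]
  have hW : ‖W‖ ≤ 1 := by
    rw [hWdef, norm_smul, RCLike.norm_conj, hz0, one_mul]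
    exact hUn
  have h1 := mean_zero W hW ξ
  have hconj : conj z₀ * z₀ = 1 := by
    rw [mul_comm, Complex.mul_conj, Complex.normSq_eq_norm_sq, hz0]; norm_num
  refine ⟨((W.eqLocus (1 : V →L[ℂ] V)).orthogonalProjectionOnto ξ : V), ?_, ?_, ?_⟩
  · exact (Submodule.norm_orthogonalProjectionOnto_apply_le _ _)
  · have h3 := ((W.eqLocus (1 : V →L[ℂ] V)).orthogonalProjectionOnto ξ).2
    have h4 : W ((W.eqLocus (1 : V →L[ℂ] V)).orthogonalProjectionOnto ξ : V) =
      ((W.eqLocus (1 : V →L[ℂ] V)).orthogonalProjectionOnto ξ : V) := h3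
    rw [hWdef, smul_apply] at h4
    conv_rhs => rw [← h4]
    rw [smul_smul, mul_comm, hconj, one_smul]
  · have h5 : Tendsto (fun N : ℕ => ∫ z : ℂ,
        (∑ n ∈ Finset.range N, (conj z₀ * z) ^ n) / (N : ℂ) ∂ν) atTop
        (𝓝 (∫ z : ℂ, Set.indicator {z₀} (fun _ => (1 : ℂ)) z ∂ν)) := by
      apply tendsto_integral_of_dominated_convergence (fun _ => (1 : ℝ))
      · intro N
        apply Measurable.aestronglyMeasurable
        apply Continuous.measurable
        fun_prop
      · exact integrable_const _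
      · intro N
        filter_upwards [hν1] with z hz
        apply geom_bound
        rw [norm_mul, RCLike.norm_conj, hz0, hz, one_mul]
      · filter_upwards [hν1] with z hz
        by_cases h : z = z₀
        · subst h
          simp only [Set.mem_singleton_iff, Set.indicator_of_mem, hconj]
          exact geom_one
        · rw [Set.indicator_of_notMem (by simpa using h)]
          apply geom_zero
          · rw [norm_mul, RCLike.norm_conj, hz0, hz, one_mul]
          · intro h6
            apply h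
            calc z = (conj z₀ * z₀) * z := by rw [hconj, one_mul]
              _ = z₀ * (conj z₀ * z) := by ring
              _ = z₀ := by rw [h6, mul_one]
    have h6 : ∀ N : ℕ, ∫ z : ℂ, (∑ n ∈ Finset.range N, (conj z₀ * z) ^ n) / (N : ℂ) ∂ν =
        (∑ n ∈ Finset.range N, inner ℂ ξ ((W ^ n) ξ)) / (N : ℂ) := by
      intro N
      rw [integral_div, integral_finsetSum]
      · congr 1
        apply Finset.sum_congr rfl
        intro n _
        have : ∀ z : ℂ, (conj z₀ * z) ^ n = conj z₀ ^ n * z ^ n := fun z => mul_pow _ _ _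
        simp_rw [this]
        rw [integral_const_mul, hν, hWdef, smul_pow, smul_apply, inner_smul_right]
      · intro n _
        refine (integrable_const (1 : ℝ)).mono' ?_ ?_
        · apply Measurable.aestronglyMeasurable
          apply Continuous.measurable
          fun_prop
        · filter_upwards [hν1] with z hz
          rw [norm_pow, norm_mul, RCLike.norm_conj, hz0, hz, one_mul, one_pow]
    simp_rw [h6] at h5
    have h7 := tendsto_nhds_unique h5 h1
    rw [← h7, integral_indicator (measurableSet_singleton _), integral_const]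
    simp [Measure.real]

theorem st_MSR : ST_MSR := by
  intro V _ _ _ U ξ hU
  obtain ⟨ν, h1, h2, h3⟩ := msr_meas U ξ hU
  exact ⟨ν, h1, h2, h3, fun z₀ hz => msr_atom U ξ hU ν h2 h3 z₀ hz⟩

end Pool.Agent.Helper16.AZ
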